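import Pool.Agent.Helper13.TR.StA

/-!
# Project TR, module SDE: iterated subdivisions become small
-/

set_option autoImplicit false

namespace Pool.Agent.Helper97.TR

open Set Topology Pool.Agent.Helper13.TR

/-- linear maps on chains with support in a set -/
private lemma map_sup {α β : Type*} [AddCommGroup β] [Module ℤ β] (f : (α →₀ ℤ) →ₗ[ℤ] β) (s : Set α)
    (N : Submodule ℤ β) (h : ∀ a ∈ s, f (Finsupp.single a 1) ∈ N) :
    ∀ c ∈ Finsupp.supported ℤ ℤ s, f c ∈ N := by
  intro c hc
  rw [Finsupp.supported_eq_span_single] at hc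
  have h1 : Submodule.span ℤ ((fun i => Finsupp.single i (1 : ℤ)) '' s) ≤ N.comap f := by
    rw [Submodule.span_le]
    rintro _ ⟨a, ha, rfl⟩
    exact h a ha
  exact h1 hc

private lemma act_single {X : Type} [TopologicalSpace X] {n k : ℕ} (σ : Sx X n) (w : Av n k) :
    act σ k (Finsupp.single w 1) = Finsupp.single (σ.comp (lin w)) 1 := by
  unfold act
  rw [Finsupp.lmapDomain_apply, Finsupp.mapDomain_single]

private lemma single_cin {X : Type} [TopologicalSpace X] {n : ℕ} (S : Set X) (σ : Sx X n) (h : range σ ⊆ S) :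
    (Finsupp.single σ 1 : Ch X n) ∈ cin S n := by
  unfold cin
  exact Finsupp.single_mem_supported ℤ 1 h

private lemma range_comp_sub {X : Type} [TopologicalSpace X] {n k : ℕ} (σ : Sx X n) (w : Av n k) :
    range (σ.comp (lin w)) ⊆ range σ := by
  rintro _ ⟨t, rfl⟩
  exact ⟨lin w t, rfl⟩

/-- the simplices of `act σ a` have image in the image of `σ` -/
private lemma act_cin {X : Type} [TopologicalSpace X] {n k : ℕ} (S : Set X) (σ : Sx X n) (h : range σ ⊆ S)
    (a : AC n k) : act σ k a ∈ cin S k := by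
  refine map_sup (act σ k) univ (cin S k) (fun w _ => ?_) a ?_
  · rw [act_single]
    exact single_cin S _ ((range_comp_sub σ w).trans h)
  · rw [Finsupp.supported_univ]
    trivial

private lemma Sd_single {X : Type} [TopologicalSpace X] {n : ℕ} (σ : Sx X n) :
    Sd n (Finsupp.single σ 1) = act σ n (asd n (Finsupp.single (iot n) 1)) := by
  unfold Sd
  rw [Finsupp.linearCombination_single, one_smul]

/-- `Sd` keeps the supports -/
private lemma Sd_cin {X : Type} [TopologicalSpace X] {n : ℕ} (S : Set X) : ∀ c ∈ cin S n, Sd n c ∈ cin S n := by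
  refine map_sup (Sd n) _ (cin S n) fun σ hσ => ?_
  rw [Sd_single]
  exact act_cin S σ hσ _

private lemma act_comp (hLNA : StLNA) {X : Type} [TopologicalSpace X] {n m k : ℕ} (σ : Sx X m) (u : Av m n)
    (a : AC n k) : act (σ.comp (lin u)) k a = act σ k (amap (lin u) k a) := by
  have h : act (σ.comp (lin u)) k = (act σ k).comp (amap (lin u) k) := by
    refine Finsupp.lhom_ext' fun w => LinearMap.ext_ring ?_
    simp only [LinearMap.comp_apply, Finsupp.lsingle_apply]
    rw [act_single]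
    unfold amap
    rw [Finsupp.lmapDomain_apply, Finsupp.mapDomain_single, act_single, ← hLNA.2.2.1]
    rfl
  rw [h]
  rfl

private lemma Sd_act (hLNA : StLNA) (hABD : StABD) {X : Type} [TopologicalSpace X] {n : ℕ} (σ : Sx X n)
    (a : AC n n) : Sd n (act σ n a) = act σ n (asd n a) := by
  have h : (Sd n).comp (act σ n) = (act σ n).comp (asd n) := by
    refine Finsupp.lhom_ext' fun v => LinearMap.ext_ring ?_
    simp only [LinearMap.comp_apply, Finsupp.lsingle_apply]
    rw [act_single, Sd_single, act_comp hLNA, hABD.2.2.2.1]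
    congr 2
    unfold amap
    rw [Finsupp.lmapDomain_apply, Finsupp.mapDomain_single]
    congr 1
    funext i
    exact hLNA.1 n n v i
  exact LinearMap.congr_fun h a

private lemma Sd_iter (hLNA : StLNA) (hABD : StABD) {X : Type} [TopologicalSpace X] {n : ℕ} (σ : Sx X n)
    (m : ℕ) : ((Sd n)^[m]) (Finsupp.single σ 1) = act σ n (((asd n)^[m]) (Finsupp.single (iot n) 1)) := by
  induction m with
  | zero =>
    simp only [Function.iterate_zero, id_eq]
    rw [act_single, hLNA.2.2.2.2]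
    rfl
  | succ m ih =>
    rw [Function.iterate_succ_apply', Function.iterate_succ_apply', ih, Sd_act hLNA hABD]

/-- the mesh of the iterated subdivision -/
private lemma mesh (hMSH : StMSH) (n m : ℕ) : ((asd n)^[m]) (Finsupp.single (iot n) 1) ∈
    Finsupp.supported ℤ ℤ {w : Av n n | ∀ i j, dist (w i) (w j) ≤ ((n : ℝ) / (n + 1)) ^ m * 2} := by
  induction m with
  | zero =>
    refine Finsupp.single_mem_supported ℤ 1 fun i j => ?_
    rw [pow_zero, one_mul]
    have h : ∀ x : Dl n, dist (x : Fin (n + 1) → ℝ) 0 ≤ 1 := by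
      intro x
      rw [dist_pi_le_iff zero_le_one]
      intro l
      have h0 : ∀ i, 0 ≤ x i := fun i => x.2.1 i
      have h1 : ∑ i, x i = 1 := x.2.2
      rw [Real.dist_eq, Pi.zero_apply, sub_zero]
      change |x l| ≤ 1
      rw [abs_of_nonneg (h0 l), ← h1]
      exact Finset.single_le_sum (fun i _ => h0 i) (Finset.mem_univ l)
    calc dist (iot n i) (iot n j) = dist (iot n i : Fin (n + 1) → ℝ) (iot n j : Fin (n + 1) → ℝ) := rfl
      _ ≤ dist (iot n i : Fin (n + 1) → ℝ) 0 + dist 0 (iot n j : Fin (n + 1) → ℝ) := dist_triangle _ _ _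
      _ ≤ 1 + 1 := add_le_add (h _) (by rw [dist_comm]; exact h _)
      _ = 2 := by norm_num
  | succ m ih =>
    rw [Function.iterate_succ_apply']
    refine map_sup (asd n) _ _ (fun v hv => ?_) _ ih
    rw [Finsupp.mem_supported]
    intro w hw i j
    have h := (hMSH.1 n n v _ hv w hw).2 i j
    calc dist (w i) (w j) ≤ (n : ℝ) / (n + 1) * (((n : ℝ) / (n + 1)) ^ m * 2) := h
      _ = _ := by ring

private lemma lin_ball {n k : ℕ} (w : Av n k) (r : ℝ) (h : ∀ i, dist (w i) (w 0) ≤ r) (t : Dl k) :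
    dist (lin w t) (w 0) ≤ r := by
  have h0 : ∀ i, 0 ≤ t i := fun i => t.2.1 i
  have h1 : ∑ i, t i = 1 := t.2.2
  have e : dist (lin w t) (w 0) = ‖(∑ i, (t : Fin (k + 1) → ℝ) i • (w i : Fin (n + 1) → ℝ)) - (w 0 : Fin (n + 1) → ℝ)‖ := by
    rw [← dist_eq_norm]
    rfl
  have e2 : (∑ i, (t : Fin (k + 1) → ℝ) i • (w i : Fin (n + 1) → ℝ)) - (w 0 : Fin (n + 1) → ℝ) =
      ∑ i, (t : Fin (k + 1) → ℝ) i • ((w i : Fin (n + 1) → ℝ) - (w 0 : Fin (n + 1) → ℝ)) := by
    simp only [smul_sub, Finset.sum_sub_distrib]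
    rw [← Finset.sum_smul, h1, one_smul]
  rw [e, e2]
  calc _ ≤ ∑ i, ‖(t : Fin (k + 1) → ℝ) i • ((w i : Fin (n + 1) → ℝ) - (w 0 : Fin (n + 1) → ℝ))‖ := norm_sum_le _ _
    _ ≤ ∑ i, (t : Fin (k + 1) → ℝ) i * r := by
        refine Finset.sum_le_sum fun i _ => ?_
        rw [norm_smul, Real.norm_eq_abs, abs_of_nonneg (h0 i)]
        refine mul_le_mul_of_nonneg_left ?_ (h0 i)
        rw [← dist_eq_norm]
        exact h i
    _ = r := by rw [← Finset.sum_mul, h1, one_mul]

/-- MODULE SDE -/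
theorem hSDE (hLNA : StLNA) (hABD : StABD) (hMSH : StMSH) : StSDE := by
  intro X _ O₁ O₂ h₁ h₂ n c hc
  have hstep : ∀ c ∈ cin O₁ n ⊔ cin O₂ n, Sd n c ∈ cin O₁ n ⊔ cin O₂ n := by
    intro c hc
    obtain ⟨a, ha, b, hb, rfl⟩ := Submodule.mem_sup.1 hc
    rw [map_add]
    exact Submodule.add_mem_sup (Sd_cin O₁ a ha) (Sd_cin O₂ b hb)
  have hmono : ∀ (k : ℕ) (c : Ch X n), c ∈ cin O₁ n ⊔ cin O₂ n → ((Sd n)^[k]) c ∈ cin O₁ n ⊔ cin O₂ n := by
    intro k
    induction k with
    | zero => intro c hc; exact hc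
    | succ k ih => intro c hc; rw [Function.iterate_succ_apply]; exact ih _ (hstep c hc)
  have hpow : ∀ (k : ℕ) (c : Ch X n), ((Sd n)^[k]) c = ((Sd n : Module.End ℤ (Ch X n)) ^ k) c :=
    fun k c => (Module.End.pow_apply (Sd n) k c).symm
  unfold cin at hc
  rw [Finsupp.supported_eq_span_single] at hc
  induction hc using Submodule.span_induction with
  | mem x hx =>
    obtain ⟨σ, hσ, rfl⟩ := hx
    -- Lebesgue number
    obtain ⟨δ, hδ, hL⟩ := lebesgue_number_lemma_of_metric (s := (univ : Set (Dl n))) (ι := Bool)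
      (c := fun b => σ ⁻¹' (if b then O₁ else O₂)) isCompact_univ
      (fun b => by cases b <;> simpa using IsOpen.preimage σ.continuous (by assumption)) (by
        intro x _
        have hx : σ x ∈ O₁ ∪ O₂ := hσ ⟨x, rfl⟩
        rcases hx with hx | hx
        · exact mem_iUnion.2 ⟨true, by simpa using hx⟩
        · exact mem_iUnion.2 ⟨false, by simpa using hx⟩)
    have hlim : Filter.Tendsto (fun m : ℕ => ((n : ℝ) / (n + 1)) ^ m * 2) Filter.atTop (𝓝 (0 * 2)) := by
      refine Filter.Tendsto.mul_const 2 ?_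
      refine tendsto_pow_atTop_nhds_zero_of_lt_one (by positivity) ?_
      rw [div_lt_one (by positivity)]
      linarith
    rw [zero_mul] at hlim
    obtain ⟨m, hm⟩ := (hlim.eventually (gt_mem_nhds hδ)).exists
    refine ⟨m, ?_⟩
    rw [Sd_iter hLNA hABD]
    refine map_sup (act σ n) _ _ (fun w hw => ?_) _ (mesh hMSH n m)
    rw [act_single]
    obtain ⟨b, hb⟩ := hL (w 0) (mem_univ _)
    have hr : range (σ.comp (lin w)) ⊆ (if b then O₁ else O₂) := by
      rintro _ ⟨t, rfl⟩
      have h3 : lin w t ∈ Metric.ball (w 0) δ := by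
        rw [Metric.mem_ball]
        exact lt_of_le_of_lt (lin_ball w _ (fun i => hw i 0) t) hm
      exact hb h3
    cases b
    · exact Submodule.mem_sup_right (single_cin O₂ _ (by simpa using hr))
    · exact Submodule.mem_sup_left (single_cin O₁ _ (by simpa using hr))
  | zero =>
    exact ⟨0, Submodule.zero_mem _⟩
  | add x y _ _ hx hy =>
    obtain ⟨a, ha⟩ := hx
    obtain ⟨b, hb⟩ := hy
    refine ⟨a + b, ?_⟩
    rw [hpow, map_add, ← hpow, ← hpow]
    refine Submodule.add_mem _ ?_ ?_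
    · rw [add_comm, Function.iterate_add_apply]
      exact hmono b _ ha
    · rw [Function.iterate_add_apply]
      exact hmono a _ hb
  | smul r x _ hx =>
    obtain ⟨a, ha⟩ := hx
    refine ⟨a, ?_⟩
    rw [hpow, map_smul, ← hpow]
    exact Submodule.smul_mem _ r ha

end Pool.Agent.Helper97.TR
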